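import Pool.Agent.H.MP_958dc4_gt.A

set_option autoImplicit false

namespace Pool.Agent.H.MP_16af68_gt

open Set Topology Pool.Agent.H.MP_958dc4_gt

lemma sub_gen {Z Y : Type} [TopologicalSpace Y] {A : Set Y} (c : Z → A) (a : A) :
    closure (range c) = closure {a} ↔ closure (range (Subtype.val ∘ c)) = closure {a.1} := by
  constructor
  · intro h
    rw [range_comp, ← closure_image_closure continuous_subtype_val, h,
      closure_image_closure continuous_subtype_val, image_singleton]
  · intro h
    rw [IsEmbedding.subtypeVal.closure_eq_preimage_closure_image,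
      IsEmbedding.subtypeVal.closure_eq_preimage_closure_image, ← range_comp, h, image_singleton]

lemma K3 (Y : Type) [TopologicalSpace Y] [T0Space Y] [QuasiSober Y] (S : Set (Set Y))
    (h : ∀ A ∈ S, KK ↥A) : KK ↥(⋂₀ S) := by
  refine ⟨inferInstance, fun m c hc => ?_⟩
  obtain ⟨y, hy⟩ := (KK_sober Y inferInstance inferInstance).2 m (Subtype.val ∘ c)
    (continuous_subtype_val.comp hc)
  have hyS : y ∈ ⋂₀ S := by
    intro A hA
    obtain ⟨a, ha⟩ := (h A hA).2 m (fun z => ⟨(c z).1, (c z).2 A hA⟩)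
      ((continuous_subtype_val.comp hc).subtype_mk _)
    rw [sub_gen] at ha
    have : y = a.1 := gen_unique (hy.symm.trans ha)
    rw [this]; exact a.2
  exact ⟨⟨y, hyS⟩, (sub_gen c _).2 hy⟩

lemma K4 (X Y : Type) [TopologicalSpace X] [TopologicalSpace Y] [T0Space X] [QuasiSober X]
    [T0Space Y] [QuasiSober Y] (f : X → Y) (hf : Continuous f) (B : Set Y) (hB : KK ↥B) :
    KK ↥(f ⁻¹' B) := by
  refine ⟨inferInstance, fun m c hc => ?_⟩
  obtain ⟨x, hx⟩ := (KK_sober X inferInstance inferInstance).2 m (Subtype.val ∘ c)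
    (continuous_subtype_val.comp hc)
  obtain ⟨b, hb⟩ := hB.2 m (fun z => ⟨f (c z).1, (c z).2⟩)
    ((hf.comp (continuous_subtype_val.comp hc)).subtype_mk _)
  rw [sub_gen] at hb
  have h1 : closure (range (f ∘ Subtype.val ∘ c)) = closure {f x} := by
    rw [range_comp, ← closure_image_closure hf, hx, closure_image_closure hf, image_singleton]
  have h2 : f x = b.1 := gen_unique (h1.symm.trans hb)
  have hxB : x ∈ f ⁻¹' B := by
    show f x ∈ B
    rw [h2]; exact b.2
  exact ⟨⟨x, hxB⟩, (sub_gen c _).2 hx⟩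

end Pool.Agent.H.MP_16af68_gt
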